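import Pool.Agent.H47.ST.Targets

/-! Row PS: splitting the list of the placements. -/

set_option autoImplicit false

namespace Pool.Agent.H77.STK

open Finset Pool.Agent.H47.ST

theorem plc_append (A C : List (List ℕ)) : ∀ L : List (List ℕ), plc L (A ++ C) =
    ((plc L A).map fun q => ((q.1, q.2.1, q.2.2.1, q.2.2.2 ++ C) : Pl)) ++ plc (L ++ A) C := by
  induction A with
  | nil =>
    intro L
    simp [plc]
  | cons B A ih =>
    intro L
    have e : L ++ [B] ++ A = L ++ B :: A := by rw [List.append_assoc]; rfl
    rw [List.cons_append, plc, plc, ih, List.map_append, List.map_map, e, ← List.append_assoc]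
    rfl

theorem plc_left (L C : List (List ℕ)) : ∀ M : List (List ℕ), plc (L ++ M) C =
    (plc M C).map fun q => ((L ++ q.1, q.2.1, q.2.2.1, q.2.2.2) : Pl) := by
  induction C with
  | nil =>
    intro M
    simp [plc]
  | cons B C ih =>
    intro M
    rw [plc, plc, List.append_assoc, ih, List.map_append, List.map_map]
    rfl

theorem pf_PS : T_PS := by
  intro A C
  rw [plc_append]
  congr 1
  have h := plc_left A C []
  rw [List.append_nil] at h
  rw [List.nil_append]
  exact h

end Pool.Agent.H77.STK
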