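import Pool.Agent.H47.ST.Targets

/-! Row YS: the part of the own block to the right of the new element, general case. -/

set_option autoImplicit false

namespace Pool.Agent.H77.STK

open Finset Pool.Agent.H47.ST

theorem cl_mono (e n m : ℕ) (he : e < 2) (h : n ≤ m) : cl e n ≤ cl e m := by
  unfold cl
  split_ifs <;> omega

theorem Lh_mono (e hl hl' r r' hr hr' : ℕ) (he : e < 2) (h1 : hl ≤ hl') (h2 : r ≤ r')
    (h3 : hr ≤ hr') : Lh e hl r hr ≤ Lh e hl' r' hr' := by
  unfold Lh
  refine min_le_min (cl_mono _ _ _ (by omega) (by omega)) (cl_mono _ _ _ he (by omega))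

/-- exponents of the weight -/
theorem wt_eq (R : ℕ) (W U : ℝ) (e hl r hr : ℕ) : wt R W U e hl r hr =
    Real.exp (((R : ℝ) + 1 - (Lh e hl r hr : ℝ)) / R) *
      W ^ (if walker hl r hr then 1 else 0) * U ^ (if pend e hl r hr then 1 else 0) := by
  unfold wt
  split_ifs <;> simp

theorem wt_nonneg (R : ℕ) (W U : ℝ) (e hl r hr : ℕ) (hW : 1 ≤ W) (hU : 1 ≤ U) :
    0 ≤ wt R W U e hl r hr := by
  rw [wt_eq]
  have : 0 ≤ W := by linarith
  have : 0 ≤ U := by linarith
  positivity

theorem phC_nonneg (R : ℕ) (W U : ℝ) (e : ℕ) (hW : 1 ≤ W) (hU : 1 ≤ U) (B : List ℕ) :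
    ∀ hl hr, 0 ≤ phC R W U e hl B hr := by
  induction B with
  | nil => intro hl hr; simp [phC]
  | cons r B ih =>
    intro hl hr
    rw [phC]
    exact mul_nonneg (wt_nonneg R W U e _ _ _ hW hU) (ih _ _)

/-- one element -/
theorem wt_step (R : ℕ) (W U : ℝ) (e hl hl' r r' hr hr' i i' j j' : ℕ) (hW : 1 ≤ W) (hU : 1 ≤ U)
    (h1 : Lh e hl r hr ≤ Lh e hl' r' hr')
    (h2 : (if walker hl' r' hr' then 1 else 0) + i' ≤ (if walker hl r hr then 1 else 0) + i)
    (h3 : (if pend e hl' r' hr' then 1 else 0) + j' ≤ (if pend e hl r hr then 1 else 0) + j) :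
    wt R W U e hl' r' hr' * (W ^ i' * U ^ j') ≤ W ^ i * U ^ j * wt R W U e hl r hr := by
  have hW0 : 0 ≤ W := by linarith
  have hU0 : 0 ≤ U := by linarith
  rw [wt_eq, wt_eq]
  have e1 : Real.exp (((R : ℝ) + 1 - (Lh e hl' r' hr' : ℝ)) / R) ≤
      Real.exp (((R : ℝ) + 1 - (Lh e hl r hr : ℝ)) / R) := by
    refine Real.exp_le_exp.2 (div_le_div_of_nonneg_right ?_ (Nat.cast_nonneg _))
    have : (Lh e hl r hr : ℝ) ≤ (Lh e hl' r' hr' : ℝ) := by exact_mod_cast h1
    linarith
  have e2 := pow_le_pow_right₀ hW h2
  have e3 := pow_le_pow_right₀ hU h3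
  calc Real.exp (((R : ℝ) + 1 - (Lh e hl' r' hr' : ℝ)) / R) *
          W ^ (if walker hl' r' hr' then 1 else 0) * U ^ (if pend e hl' r' hr' then 1 else 0) *
          (W ^ i' * U ^ j') =
        Real.exp (((R : ℝ) + 1 - (Lh e hl' r' hr' : ℝ)) / R) *
          W ^ ((if walker hl' r' hr' then 1 else 0) + i') *
          U ^ ((if pend e hl' r' hr' then 1 else 0) + j') := by
        rw [pow_add, pow_add]; ring
    _ ≤ Real.exp (((R : ℝ) + 1 - (Lh e hl r hr : ℝ)) / R) *
          W ^ ((if walker hl r hr then 1 else 0) + i) *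
          U ^ ((if pend e hl r hr then 1 else 0) + j) := by
        refine mul_le_mul (mul_le_mul e1 e2 (by positivity) (by positivity)) e3 (by positivity)
          (by positivity)
    _ = _ := by rw [pow_add, pow_add]; ring

/-- exponent of `W` -/
def eW (tX t H : ℕ) : ℕ := (if H + 2 ≤ tX then 1 else 0) + (if H + 2 ≤ t then 1 else 0)

/-- exponent of `U` -/
def eU (t H : ℕ) : ℕ := if H + 1 ≤ t then 1 else 0

theorem YS_gen (h1 : T_TOP) (R : ℕ) (W U : ℝ) (e tX t : ℕ) (hW : 1 ≤ W) (hU : 1 ≤ U) (he : e < 2)
    (Z : List ℕ) : ∀ H a b : ℕ, a = max tX H → a ≤ b → t = max H (top 0 Z) →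
    phC R W U e b (up e H Z) 0 * U ^ (vis e a Z).card ≤
      W ^ (eW tX t H) * U ^ (eU t H) * phC R W U e a Z 0 := by
  obtain ⟨t1, -, -, t4⟩ := h1
  have hW0 : 0 ≤ W := by linarith
  have hU0 : 0 ≤ U := by linarith
  induction Z with
  | nil =>
    intro H a b _ _ _
    simp only [up, phC, vis, Finset.card_empty, pow_zero, mul_one]
    exact one_le_mul_of_one_le_of_one_le (one_le_pow₀ hW) (one_le_pow₀ hU)
  | cons r Z ih =>
    intro H a b ha hab ht
    have htop : top 0 (r :: Z) = max (r + 1) (top 0 Z) := by
      rw [top, t1]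
      omega
    rw [htop] at ht
    -- the general step
    have key : ∀ (H2 r2 v : ℕ), up e H (r :: Z) = r2 :: up e H2 Z → r ≤ r2 →
        max a (r + 1) = max tX H2 → t = max H2 (top 0 Z) →
        (vis e a (r :: Z)).card ≤ v + (vis e (max a (r + 1)) Z).card →
        (if walker b r2 (top 0 (up e H2 Z)) then 1 else 0) + eW tX t H2 ≤
          (if walker a r (top 0 Z) then 1 else 0) + eW tX t H →
        (if pend e b r2 (top 0 (up e H2 Z)) then 1 else 0) + (eU t H2 + v) ≤
          (if pend e a r (top 0 Z) then 1 else 0) + eU t H →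
        phC R W U e b (up e H (r :: Z)) 0 * U ^ (vis e a (r :: Z)).card ≤
          W ^ (eW tX t H) * U ^ (eU t H) * phC R W U e a (r :: Z) 0 := by
      intro H2 r2 v hup hr2 hm hm2 hv hw hp
      have ih' := ih H2 (max a (r + 1)) (max b (r2 + 1)) hm (by omega) hm2
      have hmono : top 0 Z ≤ top 0 (up e H2 Z) := by
        rw [t4]
        split_ifs <;> omega
      have hs := wt_step R W U e a b r r2 (top 0 Z) (top 0 (up e H2 Z)) (eW tX t H)
        (eW tX t H2) (eU t H) (eU t H2 + v) hW hU (Lh_mono e _ _ _ _ _ _ he hab hr2 hmono) hw hp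
      rw [hup, phC, phC, Nat.max_zero, Nat.max_zero]
      have hwn := wt_nonneg R W U e b r2 (top 0 (up e H2 Z)) hW hU
      have hpn := phC_nonneg R W U e hW hU (up e H2 Z) (max b (r2 + 1)) 0
      have hpo := phC_nonneg R W U e hW hU Z (max a (r + 1)) 0
      have hc : U ^ (vis e a (r :: Z)).card ≤ U ^ v * U ^ (vis e (max a (r + 1)) Z).card := by
        rw [← pow_add]
        exact pow_le_pow_right₀ hU hv
      calc wt R W U e b r2 (top 0 (up e H2 Z)) * phC R W U e (max b (r2 + 1)) (up e H2 Z) 0 *
            U ^ (vis e a (r :: Z)).card ≤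
          wt R W U e b r2 (top 0 (up e H2 Z)) * phC R W U e (max b (r2 + 1)) (up e H2 Z) 0 *
            (U ^ v * U ^ (vis e (max a (r + 1)) Z).card) :=
            mul_le_mul_of_nonneg_left hc (mul_nonneg hwn hpn)
        _ = wt R W U e b r2 (top 0 (up e H2 Z)) * U ^ v *
            (phC R W U e (max b (r2 + 1)) (up e H2 Z) 0 *
              U ^ (vis e (max a (r + 1)) Z).card) := by ring
        _ ≤ wt R W U e b r2 (top 0 (up e H2 Z)) * U ^ v *
            (W ^ (eW tX t H2) * U ^ (eU t H2) * phC R W U e (max a (r + 1)) Z 0) :=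
            mul_le_mul_of_nonneg_left ih' (mul_nonneg hwn (pow_nonneg hU0 _))
        _ = wt R W U e b r2 (top 0 (up e H2 Z)) * (W ^ (eW tX t H2) * U ^ (eU t H2 + v)) *
            phC R W U e (max a (r + 1)) Z 0 := by rw [pow_add]; ring
        _ ≤ W ^ (eW tX t H) * U ^ (eU t H) * wt R W U e a r (top 0 Z) *
            phC R W U e (max a (r + 1)) Z 0 := mul_le_mul_of_nonneg_right hs hpo
        _ = _ := by ring
    by_cases hv : H ≤ r
    · by_cases hpar : r % 2 = e
      · -- raised
        have hup : up e H (r :: Z) = (r + 1) :: up e (r + 1) Z := by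
          rw [up, if_pos hv, if_pos hpar]
        by_cases hcount : a ≤ r ∧ r + 1 < top 0 Z
        · refine key (r + 1) (r + 1) 1 hup (by omega) (by omega) (by omega) ?_ ?_ ?_
          · rw [vis, if_pos hcount.1, if_pos ⟨hpar, hcount.2⟩]
            have e1 : max a (r + 1) = r + 1 := by omega
            rw [e1]
            refine (Finset.card_union_le _ _).trans ?_
            rw [Finset.card_singleton]
          · rw [t4]
            unfold walker eW
            split_ifs <;> omega
          · rw [t4]
            unfold pend eU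
            split_ifs <;> omega
        · refine key (r + 1) (r + 1) 0 hup (by omega) (by omega) (by omega) ?_ ?_ ?_
          · rw [vis]
            by_cases har : a ≤ r
            · have h2 : ¬ (r % 2 = e ∧ r + 1 < top 0 Z) := fun h => hcount ⟨har, h.2⟩
              rw [if_pos har, if_neg h2, Finset.empty_union]
              have e1 : max a (r + 1) = r + 1 := by omega
              rw [e1]
              omega
            · rw [if_neg har]
              have e1 : max a (r + 1) = a := by omega
              rw [e1]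
              omega
          · rw [t4]
            unfold walker eW
            split_ifs <;> omega
          · rw [t4]
            unfold pend eU
            split_ifs <;> omega
      · -- visible, not raised
        have hup : up e H (r :: Z) = r :: up e (r + 1) Z := by
          rw [up, if_pos hv, if_neg hpar]
        refine key (r + 1) r 0 hup le_rfl (by omega) (by omega) ?_ ?_ ?_
        · rw [vis]
          by_cases har : a ≤ r
          · have h2 : ¬ (r % 2 = e ∧ r + 1 < top 0 Z) := fun h => hpar h.1
            rw [if_pos har, if_neg h2, Finset.empty_union]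
            have e1 : max a (r + 1) = r + 1 := by omega
            rw [e1]
            omega
          · rw [if_neg har]
            have e1 : max a (r + 1) = a := by omega
            rw [e1]
            omega
        · rw [t4]
          unfold walker eW
          split_ifs <;> omega
        · rw [t4]
          unfold pend eU
          split_ifs <;> omega
    · -- not visible
      have hup : up e H (r :: Z) = r :: up e H Z := by
        rw [up, if_neg hv]
      refine key H r 0 hup le_rfl (by omega) (by omega) ?_ ?_ ?_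
      · rw [vis, if_neg (by omega)]
        have e1 : max a (r + 1) = a := by omega
        rw [e1]
        omega
      · rw [t4]
        unfold walker eW
        split_ifs <;> omega
      · rw [t4]
        unfold pend eU
        split_ifs <;> omega

theorem pf_YS (h1 : T_TOP) : T_YS := by
  intro R W U e tX hl Y hW hU he hh
  have hW0 : 0 ≤ W := by linarith
  have hU0 : 0 ≤ U := by linarith
  have h := YS_gen h1 R W U e tX (top 0 Y) hW hU he Y 0 tX hl (by omega) (by omega) (by omega)
  refine h.trans (mul_le_mul_of_nonneg_right ?_ (phC_nonneg R W U e hW hU Y tX 0))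
  have e1 : eW tX (top 0 Y) 0 ≤ 2 := by
    unfold eW
    split_ifs <;> omega
  have e2 : eU (top 0 Y) 0 ≤ 1 := by
    unfold eU
    split_ifs <;> omega
  have e3 := pow_le_pow_right₀ hU e2
  rw [pow_one] at e3
  exact mul_le_mul (pow_le_pow_right₀ hW e1) e3 (by positivity) (by positivity)

end Pool.Agent.H77.STK
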